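import Mathlib
import Pool.Agent.S10129

/-!
# MP_ca9ca1: infinite `k`-abelian rich words exist

For every `k ≥ 1` there are an infinite word over a finite alphabet and a constant `C > 0` such that
every factor of length `n` has at least `C n ^ 2` pairwise `k`-abelian inequivalent `k`-abelian
palindromic factors. The word is obtained from an infinite word all of whose factors have
quadratically many abelian classes of factors by inserting `0 ^ k` between consecutive letters.
-/

set_option autoImplicit false

namespace Pool.Agent.Results.MP_ca9ca1_co.KAbelianRich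

section
variable {α : Type} [DecidableEq α]

/-- The number of occurrences of `x` as a factor of `u`. -/
def occ (x u : List α) : ℕ := u.tails.countP fun t => decide (x <+: t)

/-- The words `u` and `v` are `k`-abelian equivalent: every word of length at most `k` occurs the
same number of times in `u` and in `v`. -/
def KAbEquiv (k : ℕ) (u v : List α) : Prop := ∀ x : List α, x.length ≤ k → occ x u = occ x v

/-- `k`-abelian equivalence as an equivalence relation. -/
def kSetoid (α : Type) [DecidableEq α] (k : ℕ) : Setoid (List α) where
  r := KAbEquiv k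
  iseqv := ⟨fun _ _ _ => rfl, fun h x hx => (h x hx).symm, fun h h' x hx => (h x hx).trans (h' x hx)⟩

/-- A `k`-abelian palindrome: a word that is `k`-abelian equivalent to its reversal. -/
def IsKPal (k : ℕ) (u : List α) : Prop := KAbEquiv k u u.reverse

/-- `kpal k u`: the number of `k`-abelian classes that contain at least one factor of `u` which is a
`k`-abelian palindrome. -/
noncomputable def kpal (k : ℕ) (u : List α) : ℕ :=
  {c : Quotient (kSetoid α k) | ∃ p : List α, p <:+: u ∧ IsKPal k p ∧ Quotient.mk _ p = c}.ncard

end

/-- The factor of length `n` of the infinite word `w` that starts at position `i`. -/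
def factor {α : Type} (w : ℕ → α) (i n : ℕ) : List α := (List.range n).map fun j => w (i + j)

/-! ### Blocks -/

section
variable {m : ℕ}

/-- The letter `c` followed by `0 ^ k`. -/
def bl (k : ℕ) (c : Fin m) : List (Fin (m + 1)) := c.succ :: List.replicate k 0

/-- The word `0 ^ k v_1 0 ^ k v_2 ⋯ v_l 0 ^ k`. -/
def block (k : ℕ) (v : List (Fin m)) : List (Fin (m + 1)) := List.replicate k 0 ++ v.flatMap (bl k)

theorem block_cons (k : ℕ) (c : Fin m) (v : List (Fin m)) :
    block k (c :: v) = List.replicate k 0 ++ c.succ :: block k v := by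
  simp [block, bl]

theorem block_append_singleton (k : ℕ) (v : List (Fin m)) (c : Fin m) :
    block k (v ++ [c]) = block k v ++ c.succ :: List.replicate k 0 := by
  simp [block, bl]

theorem block_reverse (k : ℕ) (v : List (Fin m)) : (block k v).reverse = block k v.reverse := by
  induction v with
  | nil => simp [block]
  | cons c v ih =>
    rw [block_cons, List.reverse_append, List.reverse_cons, ih, List.reverse_cons,
      block_append_singleton]
    simp

theorem occ_cons {α : Type} [DecidableEq α] (x : List α) (a : α) (u : List α) :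
    occ x (a :: u) = (if x <+: a :: u then 1 else 0) + occ x u := by
  unfold occ
  rw [List.tails_cons, List.countP_cons]
  simp only [decide_eq_true_eq]
  ring

/-- Occurrences of `x` in `A ++ B` that start in `A`. -/
def occL {α : Type} [DecidableEq α] (x : List α) : List α → List α → ℕ
  | [], _ => 0
  | a :: A, B => (if x <+: a :: (A ++ B) then 1 else 0) + occL x A B

theorem occ_append {α : Type} [DecidableEq α] (x A B : List α) :
    occ x (A ++ B) = occL x A B + occ x B := by
  induction A with
  | nil => simp [occL]
  | cons a A ih => rw [List.cons_append, occ_cons, ih, occL, add_assoc]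

theorem occL_congr {α : Type} [DecidableEq α] (x A B B' : List α) (k : ℕ) (hx : x.length ≤ k + 1)
    (h : B.take k = B'.take k) : occL x A B = occL x A B' := by
  induction A with
  | nil => rfl
  | cons a A ih =>
    rw [occL, occL, ih]
    congr 1
    have : x <+: a :: (A ++ B) ↔ x <+: a :: (A ++ B') := by
      have h1 : ∀ D : List α, x <+: a :: (A ++ D) ↔ x <+: (a :: (A ++ D)).take (k + 1) := by
        intro D
        constructor
        · intro h
          rw [List.prefix_take_iff]
          exact ⟨h, hx⟩
        · intro h
          exact h.trans (List.take_prefix _ _)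
      rw [h1 B, h1 B', List.take_succ_cons, List.take_succ_cons, List.take_append, List.take_append]
      have : B.take (k - A.length) = B'.take (k - A.length) := by
        have e : ∀ D : List α, D.take (k - A.length) = (D.take k).take (k - A.length) := by
          intro D
          rw [List.take_take, Nat.min_eq_left (by omega)]
        rw [e B, e B', h]
      rw [this]
    simp only [this]

/-- The number of occurrences of `x` in a block depends on the multiset of the letters only. -/
theorem occ_block (k : ℕ) (x : List (Fin (m + 1))) (hx : x.length ≤ k + 1) (v : List (Fin m)) :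
    occ x (block k v) = (v.map fun c => occL x (List.replicate k 0 ++ [c.succ])
      (List.replicate k 0)).sum + occ x (List.replicate k 0) := by
  induction v with
  | nil => simp [block]
  | cons c v ih =>
    rw [block_cons, show List.replicate k (0 : Fin (m + 1)) ++ c.succ :: block k v =
      (List.replicate k 0 ++ [c.succ]) ++ block k v by simp, occ_append, ih, List.map_cons,
      List.sum_cons, add_assoc]
    congr 1
    apply occL_congr x _ _ _ k hx
    simp [block]

theorem block_kpal (k : ℕ) (v : List (Fin m)) : IsKPal k (block k v) := by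
  intro x hx
  rw [block_reverse, occ_block k x (by omega), occ_block k x (by omega)]
  congr 1
  exact ((List.reverse_perm v).symm.map _).sum_eq

theorem occL_zero (k : ℕ) (c : Fin m) (j : ℕ) (B : List (Fin (m + 1))) :
    occL [c.succ] (List.replicate j 0 ++ B) (List.replicate k 0) = occL [c.succ] B (List.replicate k 0) := by
  induction j with
  | zero => simp
  | succ j ih =>
    rw [List.replicate_succ, List.cons_append, occL, ih, if_neg, zero_add]
    intro h
    have := (List.cons_prefix_cons.1 h).1
    exact absurd this (Fin.succ_ne_zero c)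

theorem occ_zero (k : ℕ) (c : Fin m) : occ [c.succ] (List.replicate k (0 : Fin (m + 1))) = 0 := by
  induction k with
  | zero => simp [occ]
  | succ k ih =>
    rw [List.replicate_succ, occ_cons, ih, if_neg]
    intro h
    have := (List.cons_prefix_cons.1 h).1
    exact absurd this (Fin.succ_ne_zero c)

theorem occ_block_letter (k : ℕ) (v : List (Fin m)) (c : Fin m) :
    occ [c.succ] (block k v) = v.count c := by
  rw [occ_block k _ (by simp), occ_zero, add_zero]
  induction v with
  | nil => simp
  | cons d v ih =>
    rw [List.map_cons, List.sum_cons, ih, List.count_cons, add_comm, occL_zero, occL, occL]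
    congr 1
    by_cases h : d = c
    · subst h
      simp
    · have h1 : ¬ [c.succ] <+: d.succ :: ([] ++ List.replicate k 0) := by
        intro h2
        have h3 := (List.cons_prefix_cons.1 h2).1
        exact h (Fin.succ_injective _ h3).symm
      rw [if_neg h1]
      simp [h]

/-! ### The infinite word -/

/-- The word `w_0 0 ^ k w_1 0 ^ k w_2 ⋯`. -/
def coded (k : ℕ) (w : ℕ → Fin m) (j : ℕ) : Fin (m + 1) :=
  if j % (k + 1) = 0 then (w (j / (k + 1))).succ else 0

theorem factor_add {α : Type} (w : ℕ → α) (i a b : ℕ) :
    factor w i (a + b) = factor w i a ++ factor w (i + a) b := by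
  unfold factor
  rw [List.range_add, List.map_append, List.map_map]
  congr 1
  apply List.map_congr_left
  intro j _
  simp only [Function.comp_apply]
  congr 1; omega

theorem factor_coded_zero (k : ℕ) (w : ℕ → Fin m) (a : ℕ) :
    factor (coded k w) (a * (k + 1) + 1) k = List.replicate k 0 := by
  rw [List.eq_replicate_iff]
  constructor
  · simp [factor]
  · intro b hb
    simp only [factor, List.mem_map, List.mem_range] at hb
    obtain ⟨j, hj, rfl⟩ := hb
    unfold coded
    rw [if_neg]
    rw [show a * (k + 1) + 1 + j = (1 + j) + a * (k + 1) by ring, Nat.add_mul_mod_self_right,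
      Nat.mod_eq_of_lt (by omega)]
    omega

theorem factor_coded (k : ℕ) (w : ℕ → Fin m) (l : ℕ) : ∀ a : ℕ,
    factor (coded k w) (a * (k + 1) + 1) (k + l * (k + 1)) = block k (factor w (a + 1) l) := by
  induction l with
  | zero =>
    intro a
    rw [zero_mul, add_zero, factor_coded_zero]
    simp [block, factor]
  | succ l ih =>
    intro a
    rw [show k + (l + 1) * (k + 1) = k + (1 + (k + l * (k + 1))) by ring, factor_add,
      factor_coded_zero, factor_add,
      show a * (k + 1) + 1 + k + 1 = (a + 1) * (k + 1) + 1 by ring, ih (a + 1),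
      show l + 1 = 1 + l by ring, factor_add]
    have e1 : factor w (a + 1) 1 = [w (a + 1)] := by simp [factor]
    have e2 : factor (coded k w) (a * (k + 1) + 1 + k) 1 = [(w (a + 1)).succ] := by
      simp only [factor, List.range_one, List.map_cons, List.map_nil, add_zero, coded]
      rw [show a * (k + 1) + 1 + k = (a + 1) * (k + 1) by ring]
      simp
    rw [e1, e2, List.singleton_append, List.singleton_append, block_cons]

theorem factor_infix {α : Type} (w : ℕ → α) {i n j l : ℕ} (h1 : i ≤ j) (h2 : j + l ≤ i + n) :
    factor w j l <:+: factor w i n := by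
  refine ⟨factor w i (j - i), factor w (j + l) (i + n - (j + l)), ?_⟩
  have e1 : factor w i n = factor w i ((j - i) + (l + (i + n - (j + l)))) := by
    congr 1; omega
  rw [e1, factor_add, factor_add, List.append_assoc]
  have e2 : i + (j - i) = j := by omega
  rw [e2]

theorem kpal_finite {α : Type} [DecidableEq α] (k : ℕ) (u : List α) :
    {c : Quotient (kSetoid α k) | ∃ p : List α, p <:+: u ∧ IsKPal k p ∧ Quotient.mk _ p = c}.Finite := by
  have hfin : {p : List α | p <:+: u}.Finite := by
    refine (u.sublists.toFinset.finite_toSet).subset ?_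
    intro p hp
    simp only [List.coe_toFinset, Set.mem_ofPred_eq, List.mem_sublists]
    exact List.IsInfix.sublist hp
  refine (hfin.image (Quotient.mk (kSetoid α k))).subset ?_
  rintro c ⟨p, hp, -, rfl⟩
  exact ⟨p, hp, rfl⟩

theorem kpal_pos {α : Type} [DecidableEq α] (k : ℕ) (u : List α) : 1 ≤ kpal k u := by
  unfold kpal
  rw [Nat.succ_le_iff, Set.ncard_pos (kpal_finite k u)]
  exact ⟨Quotient.mk _ [], [], List.nil_infix, fun x _ => rfl, rfl⟩

theorem count_factor (w : ℕ → Fin m) (i l : ℕ) (c : Fin m) :
    (factor w i l).count c = ((Finset.Ico i (i + l)).filter fun q => w q = c).card := by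
  induction l with
  | zero => simp [factor]
  | succ l ih =>
    rw [factor_add, List.count_append, ih]
    have e1 : factor w (i + l) 1 = [w (i + l)] := by simp [factor]
    rw [e1, ← add_assoc, Nat.Ico_succ_right_eq_insert_Ico (by omega), Finset.filter_insert]
    by_cases h : w (i + l) = c
    · rw [if_pos h, Finset.card_insert_of_notMem (by simp)]
      simp [h]
    · rw [if_neg h]
      simp [h]

end

/-- For every `k ≥ 1` there are an infinite word `w` over a finite alphabet and a constant `C > 0`
such that `kpal k u ≥ C n ^ 2` for every `n ≥ 1` and every factor `u` of length `n` of `w`. -/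
theorem result (k : ℕ) (hk : 1 ≤ k) : ∃ (m : ℕ) (w : ℕ → Fin m) (C : ℝ), 0 < C ∧
    ∀ i n : ℕ, 1 ≤ n → C * (n : ℝ) ^ 2 ≤ (kpal k (factor w i n) : ℝ) := by
  obtain ⟨m, w, C, hC, hw⟩ := Pool.Agent.S10129.result
  refine ⟨m + 1, coded k w, min (C / (4 * (k + 1) ^ 2)) (1 / (6 * (k + 1)) ^ 2), by positivity, ?_⟩
  intro i n hn
  rcases Nat.lt_or_ge n (6 * (k + 1)) with hsmall | hlarge
  · have h1 : (n : ℝ) ≤ 6 * (k + 1) := by exact_mod_cast hsmall.le
    have h2 : (1 : ℝ) ≤ kpal k (factor (coded k w) i n) := by exact_mod_cast kpal_pos _ _
    calc min (C / (4 * ((k : ℝ) + 1) ^ 2)) (1 / (6 * ((k : ℝ) + 1)) ^ 2) * (n : ℝ) ^ 2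
        ≤ (1 / (6 * ((k : ℝ) + 1)) ^ 2) * (n : ℝ) ^ 2 := by
          apply mul_le_mul_of_nonneg_right (min_le_right _ _) (by positivity)
      _ ≤ (1 / (6 * ((k : ℝ) + 1)) ^ 2) * (6 * ((k : ℝ) + 1)) ^ 2 := by
          apply mul_le_mul_of_nonneg_left _ (by positivity)
          exact pow_le_pow_left₀ (by positivity) h1 2
      _ = 1 := by field_simp
      _ ≤ _ := h2
  · -- the base factor
    obtain ⟨a, ha⟩ : ∃ a, a = (i + k) / (k + 1) := ⟨_, rfl⟩
    have ha1 : i ≤ a * (k + 1) := by
      have := Nat.div_add_mod (i + k) (k + 1)
      have h2 := Nat.mod_lt (i + k) (show 0 < k + 1 by omega)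
      rw [← ha] at this
      nlinarith
    have ha2 : a * (k + 1) ≤ i + k := by rw [ha]; exact Nat.div_mul_le_self _ _
    obtain ⟨N, hN⟩ : ∃ N, N = (n - 2 * k - 1) / (k + 1) := ⟨_, rfl⟩
    have hN1 : N * (k + 1) ≤ n - 2 * k - 1 := by rw [hN]; exact Nat.div_mul_le_self _ _
    have hN2 : n ≤ 2 * (k + 1) * N := by
      have := Nat.div_add_mod (n - 2 * k - 1) (k + 1)
      have h2 := Nat.mod_lt (n - 2 * k - 1) (show 0 < k + 1 by omega)
      rw [← hN] at this
      have h3 : (k + 1) * N + (k + 1) + 2 * k + 1 > n := by omega
      have h4 : 2 * (k + 1) * N = (k + 1) * N + (k + 1) * N := by ring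
      have h5 : (k + 1) * N + 3 * (k + 1) > 6 * (k + 1) := by omega
      omega
    have hkey := hw (a + 1) N
    set I := ((((Finset.range (N + 1)) ×ˢ (Finset.range (N + 1))).filter
              (fun p : ℕ × ℕ => 1 ≤ p.2 ∧ p.1 + p.2 ≤ N)).image
            (fun p : ℕ × ℕ => fun b : Fin m =>
              ((Finset.Ico (a + 1 + p.1) (a + 1 + p.1 + p.2)).filter
                (fun q => w q = b)).card)) with hI
    -- the map from classes to vectors
    let g : Quotient (kSetoid (Fin (m + 1)) k) → (Fin m → ℕ) :=
      Quotient.lift (fun u c => occ [c.succ] u) (by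
        intro u v huv
        funext c
        exact huv [c.succ] (by simpa using hk))
    have hle : I.card ≤ kpal k (factor (coded k w) i n) := by
      have hsub : (I : Set (Fin m → ℕ)) ⊆ g '' {c | ∃ p : List (Fin (m + 1)),
          p <:+: factor (coded k w) i n ∧ IsKPal k p ∧ Quotient.mk _ p = c} := by
        intro b hb
        rw [Finset.mem_coe, hI, Finset.mem_image] at hb
        obtain ⟨⟨s, l⟩, hp, rfl⟩ := hb
        rw [Finset.mem_filter] at hp
        obtain ⟨-, h1, h2⟩ := hp
        dsimp only at h1 h2 ⊢
        refine ⟨Quotient.mk _ (block k (factor w (a + 1 + s) l)),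
          ⟨block k (factor w (a + 1 + s) l), ?_, block_kpal k _, rfl⟩, ?_⟩
        · rw [show a + 1 + s = (a + s) + 1 by ring, ← factor_coded]
          apply factor_infix
          · nlinarith
          · have h3 : (s + l) * (k + 1) ≤ N * (k + 1) := Nat.mul_le_mul_right _ h2
            have h4 : (a + s) * (k + 1) + l * (k + 1) = a * (k + 1) + (s + l) * (k + 1) := by ring
            omega
        · funext c
          change occ [c.succ] (block k (factor w (a + 1 + s) l)) = _
          rw [occ_block_letter, count_factor]
      have h1 := Set.ncard_le_ncard hsub ((kpal_finite k _).image g)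
      rw [Set.ncard_coe_finset] at h1
      exact h1.trans (Set.ncard_image_le (kpal_finite k _))
    have h1 : (n : ℝ) ≤ 2 * (k + 1) * N := by exact_mod_cast hN2
    have h2 : (n : ℝ) ^ 2 ≤ (2 * (k + 1) * N) ^ 2 := pow_le_pow_left₀ (by positivity) h1 2
    calc min (C / (4 * ((k : ℝ) + 1) ^ 2)) (1 / (6 * ((k : ℝ) + 1)) ^ 2) * (n : ℝ) ^ 2
        ≤ (C / (4 * ((k : ℝ) + 1) ^ 2)) * (n : ℝ) ^ 2 := by
          apply mul_le_mul_of_nonneg_right (min_le_left _ _) (by positivity)
      _ ≤ (C / (4 * ((k : ℝ) + 1) ^ 2)) * (2 * ((k : ℝ) + 1) * N) ^ 2 := by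
          apply mul_le_mul_of_nonneg_left h2 (by positivity)
      _ = C * (N : ℝ) ^ 2 := by field_simp; ring
      _ ≤ (I.card : ℝ) := hkey
      _ ≤ _ := by exact_mod_cast hle

end Pool.Agent.Results.MP_ca9ca1_co.KAbelianRich
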